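import Pool.Agent.Helper54.Wav.Defs

/-!
Module W10a of MP_d629b1_an: the frame of the space `V^D` for an integer matrix `D`.
-/

set_option autoImplicit false

open MeasureTheory Matrix Module
open scoped ComplexConjugate ContDiff

namespace Pool.Agent.Helper96.Wav

open Pool.Agent.Helper54.Wav

/-- the lattice `D ℤⁿ` -/
def lat {n : ℕ} (D : Matrix (Fin n) (Fin n) ℤ) : Submodule ℤ (Fin n → ℤ) :=
  LinearMap.range D.mulVecLin

lemma mulVec_inj {n : ℕ} {D : Matrix (Fin n) (Fin n) ℤ} (hD : D.det ≠ 0) :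
    Function.Injective D.mulVecLin := by
  rw [injective_iff_map_eq_zero]
  intro v hv
  exact Matrix.eq_zero_of_mulVec_eq_zero hD hv

lemma card_lat {n : ℕ} {D : Matrix (Fin n) (Fin n) ℤ} (hD : D.det ≠ 0) :
    Nat.card ((Fin n → ℤ) ⧸ lat D) = D.det.natAbs := by
  have h := Submodule.natAbs_det_equiv (lat D) (LinearEquiv.ofInjective D.mulVecLin (mulVec_inj hD))
  rw [← h]
  congr 1
  have h2 : ((lat D).subtype ∘ₗ AddMonoidHom.toIntLinearMap
      (LinearEquiv.ofInjective D.mulVecLin (mulVec_inj hD) :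
        (Fin n → ℤ) →+ (LinearMap.range D.mulVecLin))) = D.mulVecLin := by
    ext i j
    rfl
  exact (congrArg LinearMap.det h2).trans (LinearMap.det_toLin' D)

lemma ee_add (a b : ℝ) : ee (a + b) = ee a * ee b := by
  rw [ee, ee, ee, ← Complex.exp_add]
  congr 1
  push_cast
  ring

lemma ee_zero : ee 0 = 1 := by simp [ee]

lemma ee_ne_zero (a : ℝ) : ee a ≠ 0 := Complex.exp_ne_zero _

lemma ee_neg (a : ℝ) : ee (-a) = (ee a)⁻¹ := by
  rw [ee, ee, ← Complex.exp_neg]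
  congr 1
  push_cast
  ring

lemma conj_ee (a : ℝ) : conj (ee a) = ee (-a) := by
  rw [ee, ee, ← Complex.exp_conj]
  congr 1
  simp only [map_mul, Complex.conj_ofReal, Complex.conj_I, map_ofNat]
  push_cast
  ring

lemma ee_sum {ι : Type*} (s : Finset ι) (f : ι → ℝ) : ee (∑ i ∈ s, f i) = ∏ i ∈ s, ee (f i) := by
  classical
  induction s using Finset.induction_on with
  | empty => simp [ee_zero]
  | insert a s ha ih => rw [Finset.sum_insert ha, Finset.prod_insert ha, ee_add, ih]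

lemma ee_mul_int (a : ℝ) (k : ℤ) : ee (a * k) = ee a ^ k := by
  rw [ee, ee, ← Complex.exp_int_mul]
  congr 1
  push_cast
  ring

/-- the frequency of a character of `ℤⁿ/Dℤⁿ` -/
noncomputable def gam {n : ℕ} {D : Matrix (Fin n) (Fin n) ℤ}
    (χ : AddChar ((Fin n → ℤ) ⧸ lat D) ℂ) (i : Fin n) : ℝ :=
  Complex.arg (χ (Submodule.Quotient.mk (Pi.single i 1))) / (2 * Real.pi)

lemma ee_gam_single {n : ℕ} {D : Matrix (Fin n) (Fin n) ℤ} [Finite ((Fin n → ℤ) ⧸ lat D)]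
    (χ : AddChar ((Fin n → ℤ) ⧸ lat D) ℂ) (i : Fin n) :
    ee (gam χ i) = χ (Submodule.Quotient.mk (Pi.single i 1)) := by
  have h1 : ‖χ (Submodule.Quotient.mk (Pi.single i 1))‖ = 1 := AddChar.norm_apply χ _
  have h2 := Complex.norm_mul_exp_arg_mul_I (χ (Submodule.Quotient.mk (Pi.single i 1)))
  rw [h1, Complex.ofReal_one, one_mul] at h2
  conv_rhs => rw [← h2]
  rw [ee, gam]
  congr 1
  have hpi : (Real.pi : ℂ) ≠ 0 := by exact_mod_cast Real.pi_ne_zero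
  push_cast
  field_simp

lemma ee_gam {n : ℕ} {D : Matrix (Fin n) (Fin n) ℤ} [Finite ((Fin n → ℤ) ⧸ lat D)]
    (χ : AddChar ((Fin n → ℤ) ⧸ lat D) ℂ) (m : Fin n → ℤ) :
    ee (∑ i, gam χ i * m i) = χ (Submodule.Quotient.mk m) := by
  rw [ee_sum]
  have h1 : (Submodule.Quotient.mk m : (Fin n → ℤ) ⧸ lat D) =
      ∑ i, m i • Submodule.Quotient.mk (Pi.single i (1 : ℤ)) := by
    have h2 : m = ∑ i, m i • Pi.single i (1 : ℤ) := by
      ext j
      simp [Finset.sum_apply, Pi.single_apply]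
    have h3 : (Submodule.Quotient.mk m : (Fin n → ℤ) ⧸ lat D) = (lat D).mkQ m := rfl
    rw [h3]
    conv_lhs => rw [h2]
    rw [map_sum]
    rfl
  have hsum : ∀ (t : Finset (Fin n)) (f : Fin n → (Fin n → ℤ) ⧸ lat D),
      χ (∑ i ∈ t, f i) = ∏ i ∈ t, χ (f i) := by
    intro t f
    induction t using Finset.induction_on with
    | empty => simp
    | insert a t ha ih =>
      rw [Finset.sum_insert ha, Finset.prod_insert ha, AddChar.map_add_eq_mul, ih]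
  rw [h1, hsum]
  refine Finset.prod_congr rfl fun i _ => ?_
  rw [AddChar.map_zsmul_eq_zpow, ee_mul_int, ee_gam_single]

/-- the frame functions -/
noncomputable def Gf {n r : ℕ} (φ : Fin r → (Fin n → ℝ) → ℂ) (D : Matrix (Fin n) (Fin n) ℤ)
    (χ : AddChar ((Fin n → ℤ) ⧸ lat D) ℂ) (s : Fin r) (ξ : Fin n → ℝ) : ℂ :=
  ((1 / Real.sqrt (D.det.natAbs : ℝ) : ℝ) : ℂ) * ee (-∑ i, gam χ i * ξ i) *
    φ s ((D.map (fun z : ℤ => (z : ℝ)))⁻¹ *ᵥ ξ)

lemma det_map {n : ℕ} {D : Matrix (Fin n) (Fin n) ℤ} (hD : D.det ≠ 0) :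
    (D.map (fun z : ℤ => (z : ℝ))).det ≠ 0 := by
  have h : (D.map (fun z : ℤ => (z : ℝ))).det = ((D.det : ℤ) : ℝ) := by
    have := (Int.castRingHom ℝ).map_det D
    simpa [RingHom.mapMatrix_apply] using this.symm
  rw [h]
  exact_mod_cast hD

lemma map_mulVec_zv {n : ℕ} (D : Matrix (Fin n) (Fin n) ℤ) (m : Fin n → ℤ) :
    D.map (fun z : ℤ => (z : ℝ)) *ᵥ zv m = zv (D *ᵥ m) := by
  ext i
  simp [Matrix.mulVec, dotProduct, zv]

/-- the linear change of variables as a homeomorphism -/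
noncomputable def hom {n : ℕ} {D : Matrix (Fin n) (Fin n) ℤ} (hD : D.det ≠ 0) :
    (Fin n → ℝ) ≃ₜ (Fin n → ℝ) where
  toFun ξ := (D.map (fun z : ℤ => (z : ℝ)))⁻¹ *ᵥ ξ
  invFun ξ := D.map (fun z : ℤ => (z : ℝ)) *ᵥ ξ
  left_inv ξ := by
    show D.map (fun z : ℤ => (z : ℝ)) *ᵥ ((D.map (fun z : ℤ => (z : ℝ)))⁻¹ *ᵥ ξ) = ξ
    rw [Matrix.mulVec_mulVec, Matrix.mul_nonsing_inv _ (isUnit_iff_ne_zero.mpr (det_map hD)),
      Matrix.one_mulVec]
  right_inv ξ := by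
    show (D.map (fun z : ℤ => (z : ℝ)))⁻¹ *ᵥ (D.map (fun z : ℤ => (z : ℝ)) *ᵥ ξ) = ξ
    rw [Matrix.mulVec_mulVec, Matrix.nonsing_inv_mul _ (isUnit_iff_ne_zero.mpr (det_map hD)),
      Matrix.one_mulVec]
  continuous_toFun := Continuous.matrix_mulVec continuous_const continuous_id
  continuous_invFun := Continuous.matrix_mulVec continuous_const continuous_id

lemma fin_supp {n : ℕ} {f : (Fin n → ℝ) → ℂ} (hf : HasCompactSupport f) (ξ : Fin n → ℝ) :
    (Function.support fun m : Fin n → ℤ => f (ξ + zv m)).Finite := by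
  obtain ⟨R, hR⟩ := hf.isCompact.isBounded.subset_closedBall 0
  obtain ⟨N, hN⟩ := exists_nat_ge (R + ‖ξ‖)
  refine (Set.finite_Icc (fun _ => -(N : ℤ)) (fun _ => (N : ℤ))).subset fun m hm => ?_
  have h1 : ξ + zv m ∈ Metric.closedBall (0 : Fin n → ℝ) R := hR (subset_tsupport f hm)
  rw [mem_closedBall_zero_iff] at h1
  have h2 : ‖zv m‖ ≤ N := by
    have : ‖zv m‖ ≤ ‖ξ + zv m‖ + ‖ξ‖ := by
      have h3 : zv m = (ξ + zv m) - ξ := by abel
      conv_lhs => rw [h3]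
      exact norm_sub_le _ _
    linarith
  have h3 : ∀ i, |(m i : ℝ)| ≤ N := fun i => (norm_le_pi_norm (zv m) i).trans h2
  constructor
  · intro i
    have := (abs_le.mp (h3 i)).1
    exact_mod_cast this
  · intro i
    have := (abs_le.mp (h3 i)).2
    exact_mod_cast this

/-- `ℤⁿ` is the disjoint union of the cosets of `Dℤⁿ` -/
noncomputable def cosets {n : ℕ} {D : Matrix (Fin n) (Fin n) ℤ} (hD : D.det ≠ 0) :
    ((Fin n → ℤ) ⧸ lat D) × (Fin n → ℤ) ≃ (Fin n → ℤ) :=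
  Equiv.ofBijective (fun p => Quotient.out p.1 + D *ᵥ p.2) <| by
    have hout : ∀ g : (Fin n → ℤ) ⧸ lat D, (Submodule.Quotient.mk (Quotient.out g) :
        (Fin n → ℤ) ⧸ lat D) = g := fun g => Quotient.out_eq g
    have hlat : ∀ m, (Submodule.Quotient.mk (D *ᵥ m) : (Fin n → ℤ) ⧸ lat D) = 0 := fun m =>
      (Submodule.Quotient.mk_eq_zero _).mpr ⟨m, rfl⟩
    constructor
    · rintro ⟨g, m⟩ ⟨g', m'⟩ h
      simp only at h
      have h1 := congrArg (Submodule.Quotient.mk : _ → (Fin n → ℤ) ⧸ lat D) h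
      rw [Submodule.Quotient.mk_add, Submodule.Quotient.mk_add, hout, hout, hlat, hlat,
        add_zero, add_zero] at h1
      subst h1
      rw [add_right_inj] at h
      rw [mulVec_inj hD h]
    · intro m
      have h1 : m - Quotient.out (Submodule.Quotient.mk m : (Fin n → ℤ) ⧸ lat D) ∈ lat D := by
        rw [← Submodule.Quotient.mk_eq_zero, Submodule.Quotient.mk_sub, hout, sub_self]
      obtain ⟨m1, hm1⟩ := h1
      refine ⟨⟨Submodule.Quotient.mk m, m1⟩, ?_⟩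
      have hm1' : D *ᵥ m1 = m - Quotient.out (Submodule.Quotient.mk m : (Fin n → ℤ) ⧸ lat D) := hm1
      show Quotient.out _ + D *ᵥ m1 = m
      rw [hm1']
      abel

lemma mk_cosets {n : ℕ} {D : Matrix (Fin n) (Fin n) ℤ} (hD : D.det ≠ 0)
    (p : ((Fin n → ℤ) ⧸ lat D) × (Fin n → ℤ)) :
    (Submodule.Quotient.mk (cosets hD p) : (Fin n → ℤ) ⧸ lat D) = p.1 := by
  show Submodule.Quotient.mk (Quotient.out p.1 + D *ᵥ p.2) = _
  rw [Submodule.Quotient.mk_add]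
  have h1 : (Submodule.Quotient.mk (Quotient.out p.1) : (Fin n → ℤ) ⧸ lat D) = p.1 :=
    Quotient.out_eq p.1
  have h2 : (Submodule.Quotient.mk (D *ᵥ p.2) : (Fin n → ℤ) ⧸ lat D) = 0 :=
    (Submodule.Quotient.mk_eq_zero _).mpr ⟨p.2, rfl⟩
  rw [h1, h2, add_zero]

lemma zv_add {n : ℕ} (a b : Fin n → ℤ) : zv (a + b) = zv a + zv b := by
  ext i
  simp [zv]

lemma inv_mulVec_zv {n : ℕ} {D : Matrix (Fin n) (Fin n) ℤ} (hD : D.det ≠ 0) (m : Fin n → ℤ) :
    (D.map (fun z : ℤ => (z : ℝ)))⁻¹ *ᵥ zv (D *ᵥ m) = zv m := by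
  rw [← map_mulVec_zv]
  exact (hom hD).right_inv (zv m)

lemma coef_mul (q : ℕ) :
    ((1 / Real.sqrt (q : ℝ) : ℝ) : ℂ) * ((1 / Real.sqrt (q : ℝ) : ℝ) : ℂ) = 1 / (q : ℂ) := by
  rw [← Complex.ofReal_mul, div_mul_div_comm, one_mul, Real.mul_self_sqrt (Nat.cast_nonneg q)]
  push_cast
  rfl

lemma Gf_mul {n r : ℕ} (φ : Fin r → (Fin n → ℝ) → ℂ) {D : Matrix (Fin n) (Fin n) ℤ}
    (χ χ' : AddChar ((Fin n → ℤ) ⧸ lat D) ℂ) (s t : Fin r) (ξ η : Fin n → ℝ) :
    Gf φ D χ s ξ * conj (Gf φ D χ' t η) =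
      1 / (D.det.natAbs : ℂ) * (ee (-∑ i, gam χ i * ξ i) * ee (∑ i, gam χ' i * η i)) *
        (φ s ((D.map (fun z : ℤ => (z : ℝ)))⁻¹ *ᵥ ξ) *
          conj (φ t ((D.map (fun z : ℤ => (z : ℝ)))⁻¹ *ᵥ η))) := by
  rw [Gf, Gf, map_mul, map_mul, Complex.conj_ofReal, conj_ee, neg_neg,
    ← coef_mul]
  ring

lemma gram {n r : ℕ} (φ : Fin r → (Fin n → ℝ) → ℂ)
    (hc : ∀ s, HasCompactSupport (φ s))
    (hon : ∀ s t ξ, ∑ᶠ m : Fin n → ℤ, φ s (ξ + zv m) * conj (φ t (ξ + zv m)) =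
        if s = t then 1 else 0)
    {D : Matrix (Fin n) (Fin n) ℤ} (hD : D.det ≠ 0)
    (χ χ' : AddChar ((Fin n → ℤ) ⧸ lat D) ℂ) (s t : Fin r) (ξ : Fin n → ℝ) [Decidable (χ = χ')] :
    ∑ᶠ m : Fin n → ℤ, Gf φ D χ s (ξ + zv m) * conj (Gf φ D χ' t (ξ + zv m)) =
      if χ = χ' ∧ s = t then 1 else 0 := by
  classical
  have hcard := card_lat hD
  have hne : D.det.natAbs ≠ 0 := by simpa using hD
  have : Finite ((Fin n → ℤ) ⧸ lat D) := Nat.finite_of_card_ne_zero (by rw [hcard]; exact hne)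
  have : Fintype ((Fin n → ℤ) ⧸ lat D) := Fintype.ofFinite _
  set K : ℂ := 1 / (D.det.natAbs : ℂ) * (ee (-∑ i, gam χ i * ξ i) * ee (∑ i, gam χ' i * ξ i))
    with hK
  have h1 : ∀ m : Fin n → ℤ, Gf φ D χ s (ξ + zv m) * conj (Gf φ D χ' t (ξ + zv m)) =
      K * ((χ' - χ) (Submodule.Quotient.mk m) *
        (φ s ((D.map (fun z : ℤ => (z : ℝ)))⁻¹ *ᵥ (ξ + zv m)) *
          conj (φ t ((D.map (fun z : ℤ => (z : ℝ)))⁻¹ *ᵥ (ξ + zv m))))) := by
    intro m
    rw [Gf_mul φ]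
    have h2 : ∀ ψ : AddChar ((Fin n → ℤ) ⧸ lat D) ℂ,
        ∑ i, gam ψ i * (ξ + zv m) i = ∑ i, gam ψ i * ξ i + ∑ i, gam ψ i * m i := by
      intro ψ
      rw [← Finset.sum_add_distrib]
      refine Finset.sum_congr rfl fun i _ => ?_
      rw [Pi.add_apply, zv]
      ring
    rw [h2, h2, neg_add, ee_add, ee_add, ee_gam, ee_neg (∑ i, gam χ i * (m i : ℝ)), ee_gam,
      AddChar.sub_apply', hK, div_eq_mul_inv ((χ' : _ → ℂ) _)]
    ring
  simp_rw [h1]
  rw [← mul_finsum, ← finsum_comp_equiv (cosets hD), finsum_curry, finsum_eq_sum_of_fintype]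
  · have h3 : ∀ g : (Fin n → ℤ) ⧸ lat D, ∑ᶠ m : Fin n → ℤ,
        ((χ' - χ) (Submodule.Quotient.mk (cosets hD (g, m))) *
        (φ s ((D.map (fun z : ℤ => (z : ℝ)))⁻¹ *ᵥ (ξ + zv (cosets hD (g, m)))) *
          conj (φ t ((D.map (fun z : ℤ => (z : ℝ)))⁻¹ *ᵥ (ξ + zv (cosets hD (g, m))))))) =
        (χ' - χ) g * (if s = t then 1 else 0) := by
      intro g
      rw [← hon s t ((D.map (fun z : ℤ => (z : ℝ)))⁻¹ *ᵥ (ξ + zv (Quotient.out g)))]
      rw [mul_finsum]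
      refine finsum_congr fun m => ?_
      rw [mk_cosets]
      have h4 : (D.map (fun z : ℤ => (z : ℝ)))⁻¹ *ᵥ (ξ + zv (cosets hD (g, m))) =
          (D.map (fun z : ℤ => (z : ℝ)))⁻¹ *ᵥ (ξ + zv (Quotient.out g)) + zv m := by
        have h5 : cosets hD (g, m) = Quotient.out g + D *ᵥ m := rfl
        rw [h5, zv_add, ← add_assoc, Matrix.mulVec_add _ (ξ + zv (Quotient.out g)),
          inv_mulVec_zv hD]
      rw [h4]
    simp_rw [h3]
    rw [← Finset.sum_mul, AddChar.sum_eq_ite]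
    by_cases hst : s = t
    · by_cases hχ : χ = χ'
      · subst hχ
        subst hst
        have h6 : (Fintype.card ((Fin n → ℤ) ⧸ lat D) : ℂ) = (D.det.natAbs : ℂ) := by
          rw [← hcard, Nat.card_eq_fintype_card]
        rw [if_pos (sub_self χ), if_pos rfl, if_pos ⟨rfl, rfl⟩, mul_one, h6, hK, ee_neg]
        have h7 : (D.det.natAbs : ℂ) ≠ 0 := by exact_mod_cast hne
        have h8 := ee_ne_zero (∑ i, gam χ i * ξ i)
        field_simp
      · have h9 : χ' - χ ≠ 0 := fun h => hχ (sub_eq_zero.mp h).symm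
        rw [if_neg h9, if_neg (fun h : χ = χ' ∧ s = t => hχ h.1)]
        simp
    · rw [if_neg hst, if_neg (fun h : χ = χ' ∧ s = t => hst h.2)]
      simp
  · have hcD : HasCompactSupport (fun ξ => φ s ((D.map (fun z : ℤ => (z : ℝ)))⁻¹ *ᵥ ξ)) :=
      (hc s).comp_homeomorph (hom hD)
    refine (((fin_supp hcD ξ).preimage (cosets hD).injective.injOn)).subset ?_
    intro p hp h
    apply hp
    simp only at h ⊢
    rw [h, zero_mul, mul_zero]

theorem scale_frame {n r : ℕ} (φ : Fin r → (Fin n → ℝ) → ℂ) (hφ : ∀ s, ContDiff ℝ ∞ (φ s))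
    (hc : ∀ s, HasCompactSupport (φ s))
    (hon : ∀ s t ξ, ∑ᶠ m : Fin n → ℤ, φ s (ξ + zv m) * conj (φ t (ξ + zv m)) =
        if s = t then 1 else 0)
    (D : Matrix (Fin n) (Fin n) ℤ) (hD : D.det ≠ 0) :
    ∃ G : Fin (D.det.natAbs * r) → (Fin n → ℝ) → ℂ, (∀ s, ContDiff ℝ ∞ (G s)) ∧
      (∀ s, HasCompactSupport (G s)) ∧
      (∀ s ξ, (∀ t, φ t ((D.map (fun z : ℤ => (z : ℝ)))⁻¹ *ᵥ ξ) = 0) → G s ξ = 0) ∧
      (∀ s t ξ, ∑ᶠ m : Fin n → ℤ, G s (ξ + zv m) * conj (G t (ξ + zv m)) =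
        if s = t then 1 else 0) ∧
      (∀ ξ m, ∑ s, G s ξ * conj (G s (ξ + zv m)) =
        ker φ ((D.map (fun z : ℤ => (z : ℝ)))⁻¹ *ᵥ ξ) ((D.map (fun z : ℤ => (z : ℝ)))⁻¹ *ᵥ zv m)) := by
  classical
  have hcard := card_lat hD
  have hne : D.det.natAbs ≠ 0 := by simpa using hD
  have : Finite ((Fin n → ℤ) ⧸ lat D) := Nat.finite_of_card_ne_zero (by rw [hcard]; exact hne)
  have : Fintype ((Fin n → ℤ) ⧸ lat D) := Fintype.ofFinite _
  have hcc : Fintype.card (Fin D.det.natAbs) =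
      Fintype.card (AddChar ((Fin n → ℤ) ⧸ lat D) ℂ) := by
    rw [Fintype.card_fin, AddChar.card_eq, ← hcard, Nat.card_eq_fintype_card]
  let ε : Fin (D.det.natAbs * r) ≃ AddChar ((Fin n → ℤ) ⧸ lat D) ℂ × Fin r :=
    finProdFinEquiv.symm.trans (Equiv.prodCongr (Fintype.equivOfCardEq hcc) (Equiv.refl _))
  refine ⟨fun i => Gf φ D (ε i).1 (ε i).2, ?_, ?_, ?_, ?_, ?_⟩
  · intro s
    unfold Gf
    refine (contDiff_const.mul ?_).mul ?_
    · unfold ee
      refine Complex.contDiff_exp.comp ?_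
      refine ContDiff.mul (contDiff_const.mul ?_) contDiff_const
      refine Complex.ofRealCLM.contDiff.comp ?_
      refine ContDiff.neg (ContDiff.sum fun i _ => contDiff_const.mul (contDiff_apply ℝ ℝ i))
    · refine (hφ _).comp ?_
      rw [contDiff_pi]
      intro i
      unfold Matrix.mulVec dotProduct
      exact ContDiff.sum fun j _ => contDiff_const.mul (contDiff_apply ℝ ℝ j)
  · intro s
    unfold Gf
    exact ((hc (ε s).2).comp_homeomorph (hom hD)).mul_left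
  · intro s ξ h
    show Gf φ D (ε s).1 (ε s).2 ξ = 0
    rw [Gf, h, mul_zero]
  · intro s t ξ
    show ∑ᶠ m : Fin n → ℤ, Gf φ D (ε s).1 (ε s).2 (ξ + zv m) *
      conj (Gf φ D (ε t).1 (ε t).2 (ξ + zv m)) = _
    rw [gram φ hc hon hD]
    by_cases h : s = t
    · subst h
      simp
    · rw [if_neg h, if_neg]
      rintro ⟨h1, h2⟩
      exact h (ε.injective (Prod.ext h1 h2))
  · intro ξ m
    rw [Equiv.sum_comp ε (fun p : AddChar ((Fin n → ℤ) ⧸ lat D) ℂ × Fin r =>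
      Gf φ D p.1 p.2 ξ * conj (Gf φ D p.1 p.2 (ξ + zv m))), Fintype.sum_prod_type]
    have h1 : ∀ (χ : AddChar ((Fin n → ℤ) ⧸ lat D) ℂ),
        ∑ s, Gf φ D χ s ξ * conj (Gf φ D χ s (ξ + zv m)) =
        χ (Submodule.Quotient.mk m) * (1 / (D.det.natAbs : ℂ) *
          ∑ s, (φ s ((D.map (fun z : ℤ => (z : ℝ)))⁻¹ *ᵥ ξ) *
          conj (φ s ((D.map (fun z : ℤ => (z : ℝ)))⁻¹ *ᵥ (ξ + zv m))))) := by
      intro χ
      rw [Finset.mul_sum, Finset.mul_sum]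
      refine Finset.sum_congr rfl fun s _ => ?_
      rw [Gf_mul]
      have h2 : ∑ i, gam χ i * (ξ + zv m) i = ∑ i, gam χ i * ξ i + ∑ i, gam χ i * m i := by
        rw [← Finset.sum_add_distrib]
        refine Finset.sum_congr rfl fun i _ => ?_
        rw [Pi.add_apply, zv]
        ring
      rw [h2, ee_add, ee_gam, ee_neg]
      have h8 := ee_ne_zero (∑ i, gam χ i * ξ i)
      field_simp
    simp_rw [h1]
    rw [← Finset.sum_mul, AddChar.sum_apply_eq_ite, ker]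
    have h6 : (Fintype.card ((Fin n → ℤ) ⧸ lat D) : ℂ) = (D.det.natAbs : ℂ) := by
      rw [← hcard, Nat.card_eq_fintype_card]
    have h7 : (D.det.natAbs : ℂ) ≠ 0 := by exact_mod_cast hne
    by_cases h : (Submodule.Quotient.mk m : (Fin n → ℤ) ⧸ lat D) = 0
    · obtain ⟨m1, hm1⟩ := (Submodule.Quotient.mk_eq_zero _).mp h
      have hm1' : D *ᵥ m1 = m := hm1
      rw [if_pos h, h6, if_pos ⟨m1, by rw [← hm1', inv_mulVec_zv hD]⟩, ← mul_assoc,
        mul_one_div_cancel h7, one_mul]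
      refine Finset.sum_congr rfl fun s _ => ?_
      rw [Matrix.mulVec_add]
    · rw [if_neg h, zero_mul, if_neg]
      rintro ⟨m1, hm1⟩
      apply h
      rw [Submodule.Quotient.mk_eq_zero]
      refine ⟨m1, ?_⟩
      have h9 : zv m = D.map (fun z : ℤ => (z : ℝ)) *ᵥ zv m1 := by
        rw [← hm1]
        exact ((hom hD).left_inv (zv m)).symm
      rw [map_mulVec_zv] at h9
      ext i
      have h10 := congrFun h9 i
      simp only [zv] at h10
      exact_mod_cast h10.symm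

end Pool.Agent.Helper96.Wav
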